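import Mathlib

set_option autoImplicit false

namespace Pool.Agent.Results.MP_039f74_co.Counterexample

open Finset

/-- The rank: the minimum number of elements needed to generate `G`. -/
noncomputable def rk (G : Type) [AddCommGroup G] : ℕ :=
  sInf {m : ℕ | ∃ T : Finset G, T.card = m ∧ AddSubgroup.closure (T : Set G) = ⊤}

/-- The edge boundary `#{(a,s) ∈ A × S : a + s ∉ A}`. -/
def bdry {G : Type} [AddCommGroup G] [DecidableEq G] (S A : Finset G) : ℕ :=
  ((A ×ˢ S).filter (fun p => p.1 + p.2 ∉ A)).card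

/-- The smallest order of an element of `S`. -/
noncomputable def minOrd {G : Type} [AddCommGroup G] (S : Finset G) : ℕ :=
  sInf {m : ℕ | ∃ x ∈ S, addOrderOf x = m}

/-- The statement asked in Q1. -/
def Q1 : Prop :=
  ∀ (G : Type) [AddCommGroup G] [Fintype G] [DecidableEq G] (S A : Finset G) (γ : ℝ),
    S.Nonempty → AddSubgroup.closure (S : Set G) = ⊤ → 0 < γ → γ ≤ 1 → A.Nonempty →
    (bdry S A : ℝ) ≤ (1 - γ) * rk G * A.card →
    (4 : ℝ) ^ ((1 - 1 / (minOrd S : ℝ)) * γ * rk G) ≤ A.card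

/-- The group `Z_4 × Z_2^m`. -/
abbrev GG (m : ℕ) : Type := ZMod 4 × (Fin m → ZMod 2)

/-- The generating set `e_1, e_1 + f_1, …, e_1 + f_m`. -/
def SS (m : ℕ) : Finset (GG m) :=
  insert (1, 0) ((univ : Finset (Fin m)).image (fun i => ((1 : ZMod 4), Pi.single i (1 : ZMod 2))))

lemma closure_SS (m : ℕ) : AddSubgroup.closure (SS m : Set (GG m)) = ⊤ := by
  rw [eq_top_iff]
  rintro ⟨a, f⟩ -
  have h1 : ((1 : ZMod 4), (0 : Fin m → ZMod 2)) ∈ AddSubgroup.closure (SS m : Set (GG m)) :=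
    AddSubgroup.subset_closure (by simp [SS])
  have h2 : ∀ i, ((0 : ZMod 4), (Pi.single i (1 : ZMod 2) : Fin m → ZMod 2)) ∈
      AddSubgroup.closure (SS m : Set (GG m)) := by
    intro i
    have h3 : ((1 : ZMod 4), (Pi.single i (1 : ZMod 2) : Fin m → ZMod 2)) ∈
        AddSubgroup.closure (SS m : Set (GG m)) :=
      AddSubgroup.subset_closure (by simp [SS])
    have h4 := AddSubgroup.sub_mem _ h3 h1
    simpa using h4
  have ha : ((a : ZMod 4), (0 : Fin m → ZMod 2)) ∈ AddSubgroup.closure (SS m : Set (GG m)) := by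
    have := AddSubgroup.nsmul_mem _ h1 a.val
    simpa using this
  have hf : ((0 : ZMod 4), f) ∈ AddSubgroup.closure (SS m : Set (GG m)) := by
    have h5 : ((0 : ZMod 4), f) = ∑ i, ((0 : ZMod 4), (Pi.single i (f i) : Fin m → ZMod 2)) := by
      have h6 := map_sum (AddMonoidHom.inr (ZMod 4) (Fin m → ZMod 2))
        (fun i => (Pi.single i (f i) : Fin m → ZMod 2)) univ
      rw [Finset.univ_sum_single] at h6
      exact h6
    rw [h5]
    refine AddSubgroup.sum_mem _ fun i _ => ?_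
    have h7 : ∀ y : ZMod 2, y = 0 ∨ y = 1 := by decide
    rcases h7 (f i) with h | h
    · rw [h, Pi.single_zero]
      exact AddSubgroup.zero_mem _
    · rw [h]
      exact h2 i
  have := AddSubgroup.add_mem _ ha hf
  simpa using this

lemma card_SS_le (m : ℕ) : (SS m).card ≤ m + 1 := by
  unfold SS
  refine (card_insert_le _ _).trans ?_
  have := card_image_le (s := (univ : Finset (Fin m)))
    (f := fun i => ((1 : ZMod 4), (Pi.single i (1 : ZMod 2) : Fin m → ZMod 2)))
  rw [card_univ, Fintype.card_fin] at this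
  omega

/-- Reduction modulo 2. -/
def red (m : ℕ) : GG m →+ (ZMod 2 × (Fin m → ZMod 2)) :=
  AddMonoidHom.prodMap (ZMod.castHom (show 2 ∣ 4 by norm_num) (ZMod 2)).toAddMonoidHom
    (AddMonoidHom.id _)

lemma red_surj (m : ℕ) : Function.Surjective (red m) := by
  rintro ⟨a, f⟩
  obtain ⟨b, hb⟩ := ZMod.castHom_surjective (show 2 ∣ 4 by norm_num) a
  exact ⟨(b, f), by simp [red, hb]⟩

lemma rk_ge (m : ℕ) (T : Finset (GG m)) (hT : AddSubgroup.closure (T : Set (GG m)) = ⊤) :
    m + 1 ≤ T.card := by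
  classical
  have h1 : AddSubgroup.closure ((T.image (red m) : Finset _) : Set (ZMod 2 × (Fin m → ZMod 2)))
      = ⊤ := by
    rw [coe_image, ← AddMonoidHom.map_closure, hT, ← AddMonoidHom.range_eq_map,
      AddMonoidHom.range_eq_top]
    exact red_surj m
  have h2 : Submodule.span (ZMod 2)
      ((T.image (red m) : Finset _) : Set (ZMod 2 × (Fin m → ZMod 2))) = ⊤ := by
    rw [eq_top_iff]
    intro x _
    have hx : x ∈ AddSubgroup.closure
        ((T.image (red m) : Finset _) : Set (ZMod 2 × (Fin m → ZMod 2))) := by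
      rw [h1]; trivial
    have hle : AddSubgroup.closure
        ((T.image (red m) : Finset _) : Set (ZMod 2 × (Fin m → ZMod 2))) ≤
        (Submodule.span (ZMod 2)
          ((T.image (red m) : Finset _) : Set (ZMod 2 × (Fin m → ZMod 2)))).toAddSubgroup := by
      rw [AddSubgroup.closure_le]
      exact Submodule.subset_span
    exact hle hx
  have h3 := finrank_span_finset_le_card (R := ZMod 2) (T.image (red m))
  rw [Set.finrank, h2, finrank_top, Module.finrank_prod, Module.finrank_self,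
    Module.finrank_fintype_fun_eq_card, Fintype.card_fin] at h3
  have h4 : (T.image (red m)).card ≤ T.card := card_image_le
  omega

lemma rk_eq (m : ℕ) : rk (GG m) = m + 1 := by
  unfold rk
  apply le_antisymm
  · refine le_trans (Nat.sInf_le (m := (SS m).card) ?_) (card_SS_le m)
    exact ⟨SS m, rfl, closure_SS m⟩
  · refine le_csInf ⟨_, SS m, rfl, closure_SS m⟩ ?_
    rintro k ⟨T, rfl, hT⟩
    exact rk_ge m T hT

lemma order_four {m : ℕ} (x : Fin m → ZMod 2) : addOrderOf ((1 : ZMod 4), x) = 4 := by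
  apply Nat.dvd_antisymm
  · apply addOrderOf_dvd_of_nsmul_eq_zero
    have h1 : ∀ y : ZMod 2, 4 • y = 0 := by decide
    have h2 : 4 • (1 : ZMod 4) = 0 := by decide
    exact Prod.ext h2 (funext fun j => h1 (x j))
  · have h := addOrderOf_map_dvd (AddMonoidHom.fst (ZMod 4) (Fin m → ZMod 2)) ((1 : ZMod 4), x)
    simp only [AddMonoidHom.coe_fst] at h
    rwa [ZMod.addOrderOf_one] at h

lemma orders (m : ℕ) : ∀ x ∈ SS m, addOrderOf x = 4 := by
  intro x hx
  unfold SS at hx
  rw [mem_insert, mem_image] at hx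
  rcases hx with rfl | ⟨i, -, rfl⟩
  · exact order_four _
  · exact order_four _

lemma minOrd_SS (m : ℕ) : minOrd (SS m) = 4 := by
  unfold minOrd
  have h : {k : ℕ | ∃ x ∈ SS m, addOrderOf x = k} = {4} := by
    ext k
    constructor
    · rintro ⟨x, hx, rfl⟩
      exact orders m x hx
    · rintro rfl
      exact ⟨(1, 0), by simp [SS], orders m _ (by simp [SS])⟩
  rw [h]
  exact csInf_singleton 4

lemma bdry_univ (m : ℕ) : bdry (SS m) (univ : Finset (GG m)) = 0 := by
  unfold bdry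
  simp

lemma card_GG (m : ℕ) : (univ : Finset (GG m)).card = 2 ^ (m + 2) := by
  rw [card_univ, Fintype.card_prod, Fintype.card_fun, ZMod.card, ZMod.card, Fintype.card_fin]
  ring

/-- **Result.** For every `n ≥ 3` there are a finite abelian group `G` of rank `n`, a generating
set `S` whose elements all have order `4` and the non-empty set `A = G`, with `γ = 1`,
`∂_S(A) = 0` and `|A| = 2^(n+1) < 4^((1-1/4) n)`; hence Q1 is false. -/
theorem result :
    (∀ n : ℕ, 3 ≤ n → ∃ (G : Type) (_ : AddCommGroup G) (_ : Fintype G) (_ : DecidableEq G)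
      (S A : Finset G), rk G = n ∧ S.Nonempty ∧ AddSubgroup.closure (S : Set G) = ⊤ ∧
        (∀ x ∈ S, addOrderOf x = 4) ∧ minOrd S = 4 ∧ A.Nonempty ∧ bdry S A = 0 ∧
        A.card = 2 ^ (n + 1) ∧ (A.card : ℝ) < (4 : ℝ) ^ ((1 - 1 / (4 : ℝ)) * n)) ∧
    ¬ Q1 := by
  have h1 : (∀ n : ℕ, 3 ≤ n → ∃ (G : Type) (_ : AddCommGroup G) (_ : Fintype G)
      (_ : DecidableEq G)
      (S A : Finset G), rk G = n ∧ S.Nonempty ∧ AddSubgroup.closure (S : Set G) = ⊤ ∧
        (∀ x ∈ S, addOrderOf x = 4) ∧ minOrd S = 4 ∧ A.Nonempty ∧ bdry S A = 0 ∧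
        A.card = 2 ^ (n + 1) ∧ (A.card : ℝ) < (4 : ℝ) ^ ((1 - 1 / (4 : ℝ)) * n)) := by
    intro n hn
    obtain ⟨m, rfl⟩ : ∃ m, n = m + 1 := ⟨n - 1, by omega⟩
    refine ⟨GG m, inferInstance, inferInstance, inferInstance, SS m, univ, rk_eq m,
      ⟨(1, 0), by simp [SS]⟩, closure_SS m, orders m, minOrd_SS m, ⟨0, mem_univ _⟩,
      bdry_univ m, card_GG m, ?_⟩
    rw [card_GG]
    have h4 : (4 : ℝ) = (2 : ℝ) ^ (2 : ℝ) := by norm_num
    rw [h4, ← Real.rpow_mul (by norm_num)]
    push_cast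
    rw [← Real.rpow_natCast]
    apply Real.rpow_lt_rpow_of_exponent_lt (by norm_num)
    have hm : (2 : ℝ) ≤ m := by
      have : 2 ≤ m := by omega
      exact_mod_cast this
    rw [← h4]
    push_cast
    linarith
  refine ⟨h1, fun hQ => ?_⟩
  obtain ⟨G, i1, i2, i3, S, A, a1, a2, a3, a4, a5, a6, a7, a8, a9⟩ := h1 3 le_rfl
  have := hQ G S A 1 a2 a3 (by norm_num) le_rfl a6 (by rw [a7]; simp)
  rw [a5, a1] at this
  norm_num at this a9
  linarith

end Pool.Agent.Results.MP_039f74_co.Counterexample
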